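import Pool.Agent.Run7.h798.Tate.GM

/-!
# MP_e3793a_ag, Q1: geometric flat bundles and families of singular cubic hypersurfaces

`Y` is a smooth variety over `ℚ̄` (or a stack with a dense open subscheme), `K` is its function field and `F` is
the function field of `Y_ℂ`. `D` is the relative cohomology of the families over dense open subschemes: `h r j X`
is the part of lowest weight of the homology `H_{2j-r}` of the fibres with its Gauss–Manin connection.
-/

set_option autoImplicit false

open CategoryTheory AlgebraicGeometry Pool.Agent.Y116.UV Pool.Agent.Q193.LT Pool.Agent.Q282.UK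
  Pool.Agent.Q282.UZ Run7.h798.UV Run7.h798.Tate Run7.h798.Tate.GM

namespace Pool.Agent.Results.MP_e3793a_ag.CubicHypersurfaces

/-- **Theorem.** Let `N` be a natural number. Every semisimple quasi-geometric flat bundle on `Y` is geometric
if and only if each of them is, on a dense open subscheme, a subquotient of the part of lowest weight of the
homology `H_{2j-r}`, `j ≥ N`, of a family of singular cubic hypersurfaces `∑ T_{ijl} x_i y_j z_l = 0`.

More precisely, a flat bundle `V` (semisimple or not) is, on a dense open subscheme, a subquotient of a
Gauss–Manin flat bundle in a degree `i ≡ r` modulo `2` if and only if it is a subquotient of the part of lowest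
weight of `H_{2j-r}` of such a family of cubic hypersurfaces. -/
theorem result {K : Type} [Field K] {F : Type} [Field F] [Algebra ℂ F] (D : GM.Theory K F) (N : ℕ) :
    (D.AllGeometric ↔ D.AllCubic N) ∧ ∀ (r : ℤ) (V : Flat F), D.Geometric r V ↔ D.Cubic N r V :=
  ⟨GM.all_iff D N, GM.geometric_iff D N⟩

end Pool.Agent.Results.MP_e3793a_ag.CubicHypersurfaces
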