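import Pool.Agent.Run7.h199.ZO.Eff2

/-!
# One percent of the tensor powers decides about being geometric

Let `𝒞` be the category of the semisimple flat bundles on `Y_ℂ`, regular-singular along `D`, whose
constituents are quasi-geometric, and let `𝒢` be the class of those whose constituents are geometric. Both
are stable under direct sums, subobjects, tensor products and duals (for `𝒢`: Künneth formula and
Poincaré duality; constituents of objects in `𝒞` are defined over `ℚ̄` again), and the bundles with
finite monodromy are in `𝒢`. By Tannaka duality the category `𝒞` is the category of the representations of a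
pro-reductive group `Γ` over `ℂ`, and `𝒢` is the class of the representations on which a normal subgroup `N`
acts trivially, which is contained in all subgroups of finite index; the largest geometric subbundle of
`V` is `V^N`. Q1 says that `N` acts trivially on all `V` (for all `Y`).

The theorem is about arbitrary groups `Γ` and normal subgroups `N`.

**Theorem.** Let `N` be a normal subgroup of `Γ`, and let `V` be an irreducible complex representation of
`Γ` of dimension `b ≥ 1`. Call `V` *thin* if for all `n ≥ 0` and all representations `W` of `Γ` the vectors of `V^n ⊗ W` which are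
fixed by `N` form a space of dimension at most `(b / (2 (n + 1)))^(1/2) b^n dim W`, where `V^n` is the
`n`-th tensor power. So for `n ≥ 5000 b` this is at most one percent, for all `W`.

1. Let `N` be contained in every subgroup of finite index. Then `V` is thin, or `N` acts on `V` through
   finitely many matrices up to scalars, and there is a subgroup `H` of finite index (a finite étale
   covering of `Y`) such that `N` acts by scalars on all irreducible `H`-subrepresentations of `V`.
2. Let `V` be irreducible on every subgroup of finite index, that is, on every finite étale covering of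
   `Y`. Then `V` is thin if and only if `N` does not act on `V` by scalars. `N` acts trivially on `V`
   if and only if there is one `n` such that the share of the fixed vectors in `V^n` is larger than
   `(b / (2 (n + 1)))^(1/2)` and there is a nonzero fixed vector in `V^(n+1)`.
3. Let `V` be as in (2) and let `det(g)^h = 1` on `V` for all `g` in `N`, where `h ≥ 1` (so `h = 1` if the
   determinant of the bundle is geometric). Then `V` is thin, or for each `n` all vectors or only the
   vector zero of `V^n` are fixed by `N`, and all if `b h` divides `n`.

So let `V` be a semisimple quasi-geometric bundle which is irreducible on all finite étale coverings. If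
`V ⊗ V^∨` is not geometric then for all `n` and `W` the geometric part of `V^n ⊗ W` has rank at most
`(b / (2 (n + 1)))^(1/2) b^n rank W`. The bundle `V` is geometric if and only if for one `n ≥ 5000 b` one
percent of `V^n` and some nonzero part of `V^(n+1)` are geometric.

The proof. Let `g` be in `N` with eigenvalues `l_1, ..., l_b` on `V`. By comparing traces of polynomials in
`g`, the space of the fixed vectors of `g` in `V^n ⊗ W` has dimension at most `dim W` times the largest
number of words of length `n` in `l_1, ..., l_b` with a given product. Let the ratio of `l_i` and `l_j` have order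
larger than `n`. If all letters of a word other than `l_i`, `l_j` are given (and the `k` places of these
two) then the product determines how often `l_i` occurs. So the number of words is at most the sum of
`binom(n, k) (b - 2)^(n - k) binom(k, k / 2)` over `k`, and by the inequality of Cauchy and Schwarz and
`binom(k, k / 2)^2 ≤ 4^k / (k + 1)` this is at most `(b / (2 (n + 1)))^(1/2) b^n`. So if `V` is not thin
then there is an `n` such that all ratios of eigenvalues of elements of `N` have order at most `n`. Then
the traces of the set `N_1` of the multiples of determinant one of elements of `N` take only finitely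
many values. The linear span of `N_1` is an algebra which is normalised by `Γ`, and as `V` is
irreducible the trace form of this algebra is nondegenerate. So `N_1` is finite (Burnside's argument),
and a subgroup `H` of finite index in `Γ` commutes with it. If `V` is irreducible on `H` then the elements
of `N` act as scalars (Schur's lemma). If `N` acts by scalars then `V` is not thin: take the dual of `V^n`
for `W`.
-/

set_option autoImplicit false

open Filter Topology Matrix Run7.h199.ZO

namespace Pool.Agent.Results.MP_e3793a_ag.OnePercent

/-- **The one percent law.** -/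
theorem result {Γ : Type*} [Group Γ] (N : Subgroup Γ) [N.Normal] {b : ℕ} (hb : 0 < b)
    (ρ : Γ →* Matrix (Fin b) (Fin b) ℂ) (hρ : Irr ρ Set.univ) :
    ((∀ H : Subgroup Γ, H.FiniteIndex → N ≤ H) →
      ((∃ F : Set (Matrix (Fin b) (Fin b) ℂ), F.Finite ∧ ∀ g ∈ N, ∃ x ∈ F, ∃ c : ℂ, ρ g = c • x) ∧
        ∃ H : Subgroup Γ, H.FiniteIndex ∧ ∀ W : Submodule ℂ (Fin b → ℂ),
          (∀ γ ∈ H, ∀ v ∈ W, ρ γ *ᵥ v ∈ W) →
          (∀ W' ≤ W, (∀ γ ∈ H, ∀ v ∈ W', ρ γ *ᵥ v ∈ W') → W' = ⊥ ∨ W' = W) →
          ∀ g ∈ N, ∃ c : ℂ, ∀ v ∈ W, ρ g *ᵥ v = c • v) ∨ Thin ρ N) ∧
    (Thin ρ N → ∀ n : ℕ, share ρ N n ≤ Real.sqrt (b / (2 * (n + 1)))) ∧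
    (LieIrr ρ → ((∀ g ∈ N, ∃ c : ℂ, ρ g = c • 1) ↔ ¬ Thin ρ N) ∧
      ((∀ g ∈ N, ρ g = 1) ↔
        ∃ n : ℕ, Real.sqrt (b / (2 * (n + 1))) < share ρ N n ∧ 0 < share ρ N (n + 1)) ∧
      ∀ h : ℕ, (∀ g ∈ N, (ρ g).det ^ h = 1) →
        ((∀ n, fix ρ N n = ⊤ ∨ fix ρ N n = ⊥) ∧ ∀ n, b * h ∣ n → fix ρ N n = ⊤) ∨ Thin ρ N) :=
  ⟨fun hN => cover_or_thin hb hN hρ, fun h => h.share_le hb,
    fun h => ⟨scalar_iff_thin hb h, trivial_iff_thin hb h, fun _ hdet => all_or_thin hb h hdet⟩⟩

end Pool.Agent.Results.MP_e3793a_ag.OnePercent
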