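import Pool.Agent.Run7.h293.FB.Simpson

/-!
# Quasi-geometric flat bundles: rigid fibres, fibrations and products

`𝒱` is the collection of the smooth varieties (Deligne-Mumford stacks) over `ℚ̄` with their
topological fundamental groups, and `K` the field of complex numbers. `FlatBundles K 𝒱` lists the
formal properties of the classes of quasi-geometric and of geometric flat bundles: subquotients,
tensor products, sums, pullbacks, direct images, and Simpson's theorem for rank one.

1. `E` irreducible quasi-geometric on `X`, `U → X` dominant, `U → S` a fibration by open subsets of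
   the projective line. If the restriction of `E` to the fibres of `U → S` is irreducible and
   rigid, then `E` is geometric.
2. Q1 holds for `X` if there is a dominant morphism `X' → X` such that the fundamental group of `X'`
   is commutative; the varieties for which Q1 holds are stable under products and under images by
   dominant morphisms.
3. If Q1 holds for the varieties of the dimension of `S`, then `E` is geometric as soon as its
   restriction to the geometric generic fibre of `U → S` is.

The proof: if `B` is a geometric bundle on `U` with a nonzero homomorphism `B → E` on the fibres, the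
direct image `M` of `Hom(B, E)` is quasi-geometric on `S`, and the evaluation `B ⊗ p^* M → E` is not
zero. In 1, Katz's theorem over the base gives `B`, and `M` is of rank one.
-/

set_option autoImplicit false

namespace Pool.Agent.Results.MP_e3793a_ag.RigidFibres

open Pool.Agent.Run7.h293.FB

theorem result (K : Type) [Field K] [IsAlgClosed K] (𝒱 : Varieties) (ℱ : FlatBundles K 𝒱) :
    (∀ (T : ℱ.Katz) (X U S : 𝒱.Obj) (f : 𝒱.grp U →* 𝒱.grp X) (p : 𝒱.grp U →* 𝒱.grp S),
      𝒱.Dom f → 𝒱.Fib p → ∀ E ∈ ℱ.quasi X, E.Irreducible → E.comap f ∈ T.RigidFibre p →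
      E ∈ ℱ.geo X) ∧
    (∀ (X' X : 𝒱.Obj) (f : 𝒱.grp X' →* 𝒱.grp X), 𝒱.Dom f → (∀ a b : 𝒱.grp X', a * b = b * a) →
      ℱ.Q1 X) ∧
    (∀ 𝒞 : Set 𝒱.Obj, (∀ X ∈ 𝒞, ℱ.Q1 X) → ∀ X : 𝒱.Obj, RelOrigin.BuiltFrom 𝒞 X → ℱ.Q1 X) ∧
    (∀ (T : ℱ.Spreading) (X U S : 𝒱.Obj) (f : 𝒱.grp U →* 𝒱.grp X) (p : 𝒱.grp U →* 𝒱.grp S),
      𝒱.Dom f → 𝒱.Fib p → (∀ S', ℱ.dim S' = ℱ.dim S → ℱ.Q1 S') → ∀ E ∈ ℱ.quasi X,
      E.Irreducible → E.comap f ∈ T.FibGeo p → E ∈ ℱ.geo X) :=
  ⟨fun T _ _ _ _ _ hf hp _ hE hI hT => FlatBundles.rigid_fibre T hf hp hE hI hT,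
    fun _ _ _ hf hc => FlatBundles.q1_of_irr (FlatBundles.irr_of_comm hf hc),
    fun _ h𝒞 _ hX => FlatBundles.q1_of_irr
      (FlatBundles.irr_of_built (fun Y hY => FlatBundles.irr_of_q1 (h𝒞 Y hY)) hX),
    fun T _ _ _ _ _ hf hp hS _ hE hI hT => FlatBundles.geometric_fibre T
      (fun S' hS' => FlatBundles.irr_of_q1 (hS S' hS')) hf hp hE hI hT⟩

end Pool.Agent.Results.MP_e3793a_ag.RigidFibres
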